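import Mathlib

set_option autoImplicit false
set_option linter.unusedSectionVars false

/-! Baire category on spaces of couplings. -/

open Finset Filter Topology

namespace Pool.Agent.X59.GC

variable {E : Type} [Countable E] {K : Set ℝ}

/-- no isolated points -/
def Perf (K : Set ℝ) : Prop := ∀ x ∈ K, ∀ ε > 0, ∃ y ∈ K, y ≠ x ∧ |y - x| < ε

theorem cofinal (U : ℕ → Set (E → K)) (hU : ∀ n, IsOpen (U n))
    (hD : ∀ n : ℕ, ∀ (F : Finset E) (J : E → K), ∃ m ≥ n, ∃ J' ∈ U m, ∀ e ∈ F, J' e = J e) :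
    ∀ᶠ J in residual (E → K), ∀ n : ℕ, ∃ m ≥ n, J ∈ U m := by
  rw [eventually_countable_forall]
  intro n
  have hopen : IsOpen {J : E → K | ∃ m ≥ n, J ∈ U m} := by
    have e : {J : E → K | ∃ m ≥ n, J ∈ U m} = ⋃ m, ⋃ _ : m ≥ n, U m := by
      ext J
      simp
    rw [e]
    exact isOpen_iUnion fun m => isOpen_iUnion fun _ => hU m
  refine residual_of_dense_open hopen ?_
  rw [dense_iff_inter_open]
  rintro V hV ⟨J1, hJ1⟩
  obtain ⟨F, v, hv, hsub⟩ := isOpen_pi_iff.1 hV J1 hJ1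
  obtain ⟨m, hm, J', hJ', he⟩ := hD n F J1
  refine ⟨J', hsub fun e he' => ?_, m, hm, hJ'⟩
  have he'' : e ∈ F := by exact_mod_cast he'
  rw [he e he'']
  exact (hv e he'').2

theorem noties (hK : Perf K) : ∀ᶠ J in residual (E → K), ∀ T1 T2 : Finset E, Disjoint T1 T2 →
    (∃ e, e ∈ T1 ∨ e ∈ T2) → ∑ e ∈ T1, (J e : ℝ) ≠ ∑ e ∈ T2, (J e : ℝ) := by
  classical
  rw [eventually_countable_forall]
  intro T1
  rw [eventually_countable_forall]
  intro T2
  by_cases hd : Disjoint T1 T2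
  swap
  · exact Eventually.of_forall fun J h => absurd h hd
  by_cases he : ∃ e, e ∈ T1 ∨ e ∈ T2
  swap
  · exact Eventually.of_forall fun J _ h => absurd h he
  have hc : ∀ T : Finset E, Continuous fun J : E → K => ∑ e ∈ T, (J e : ℝ) := fun T =>
    continuous_finset_sum _ fun e _ => continuous_subtype_val.comp (continuous_apply e)
  have hopen : IsOpen {J : E → K | ∑ e ∈ T1, (J e : ℝ) ≠ ∑ e ∈ T2, (J e : ℝ)} :=
    isOpen_ne_fun (hc T1) (hc T2)
  have hres : ∀ᶠ J in residual (E → K), ∑ e ∈ T1, (J e : ℝ) ≠ ∑ e ∈ T2, (J e : ℝ) := by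
    refine residual_of_dense_open hopen ?_
    rw [dense_iff_inter_open]
    rintro V hV ⟨J1, hJ1⟩
    by_cases ht : ∑ e ∈ T1, (J1 e : ℝ) = ∑ e ∈ T2, (J1 e : ℝ)
    swap
    · exact ⟨J1, hJ1, ht⟩
    obtain ⟨e0, he0⟩ := he
    have hcu : Continuous fun y : K => Function.update J1 e0 y :=
      continuous_const.update e0 continuous_id
    have hV' : IsOpen ((fun y : K => Function.update J1 e0 y) ⁻¹' V) := hV.preimage hcu
    have hmem : J1 e0 ∈ (fun y : K => Function.update J1 e0 y) ⁻¹' V := by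
      show Function.update J1 e0 (J1 e0) ∈ V
      rw [Function.update_eq_self]
      exact hJ1
    obtain ⟨ε, hε, hball⟩ := Metric.isOpen_iff.1 hV' _ hmem
    obtain ⟨y, hyK, hy, hyε⟩ := hK (J1 e0) (J1 e0).2 ε hε
    have hyV : Function.update J1 e0 (⟨y, hyK⟩ : K) ∈ V := by
      have : (⟨y, hyK⟩ : K) ∈ Metric.ball (J1 e0) ε := by
        rw [Metric.mem_ball, Subtype.dist_eq, Real.dist_eq]
        exact hyε
      exact hball this
    refine ⟨_, hyV, ?_⟩
    show ∑ e ∈ T1, ((Function.update J1 e0 (⟨y, hyK⟩ : K) e : K) : ℝ) ≠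
      ∑ e ∈ T2, ((Function.update J1 e0 (⟨y, hyK⟩ : K) e : K) : ℝ)
    have hval : ∀ e, e ≠ e0 → ((Function.update J1 e0 (⟨y, hyK⟩ : K) e : K) : ℝ) = J1 e := by
      intro e he
      rw [Function.update_of_ne he]
    have hval0 : ((Function.update J1 e0 (⟨y, hyK⟩ : K) e0 : K) : ℝ) = y := by
      rw [Function.update_self]
    have hin : ∀ T : Finset E, e0 ∈ T →
        ∑ e ∈ T, ((Function.update J1 e0 (⟨y, hyK⟩ : K) e : K) : ℝ) =
        ∑ e ∈ T, (J1 e : ℝ) + (y - J1 e0) := by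
      intro T hT
      rw [← add_sum_erase _ _ hT, ← add_sum_erase T (fun e => (J1 e : ℝ)) hT, hval0,
        sum_congr rfl fun e he => hval e (ne_of_mem_erase he)]
      ring
    have hout : ∀ T : Finset E, e0 ∉ T →
        ∑ e ∈ T, ((Function.update J1 e0 (⟨y, hyK⟩ : K) e : K) : ℝ) = ∑ e ∈ T, (J1 e : ℝ) :=
      fun T hT => sum_congr rfl fun e he => hval e fun h => hT (h ▸ he)
    have hne : y - J1 e0 ≠ 0 := sub_ne_zero.2 hy
    rcases he0 with h0 | h0
    · rw [hin T1 h0, hout T2 (Finset.disjoint_left.1 hd h0), ht]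
      intro h
      exact hne (by linarith)
    · rw [hin T2 h0, hout T1 (Finset.disjoint_right.1 hd h0), ht]
      intro h
      exact hne (by linarith)
  exact hres.mono fun J h _ _ => h

end Pool.Agent.X59.GC
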