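import Mathlib

set_option autoImplicit false
set_option linter.unusedSectionVars false

/-! Sums over boxes of `ℤ²`, alternating chains. -/

open Finset

namespace Pool.Agent.X59.GC

/-- alternating sums of signs are bounded by one plus the number of changes -/
theorem chain (a f : ℕ → ℝ) (ha : ∀ i, a (i + 1) = -a i) (ha0 : a 0 = 1 ∨ a 0 = -1)
    (hf : ∀ i, f i = 1 ∨ f i = -1) (k : ℕ) :
    |∑ i ∈ range (k + 1), a i * f i| ≤ 1 + ∑ i ∈ range k, (1 - f i * f (i + 1)) / 2 := by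
  have hs : ∀ i, a i = 1 ∨ a i = -1 := by
    intro i
    induction i with
    | zero => exact ha0
    | succ i ih =>
      rw [ha]
      rcases ih with h | h
      · right; rw [h]
      · left; rw [h]; norm_num
  have hab : ∀ i, |a i * f i| = 1 := by
    intro i
    rcases hs i with h | h <;> rcases hf i with h' | h' <;> rw [h, h'] <;> norm_num
  have hc : ∀ i, 0 ≤ (1 - f i * f (i + 1)) / 2 := by
    intro i
    rcases hf i with h | h <;> rcases hf (i + 1) with h' | h' <;> rw [h, h'] <;> norm_num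
  have key : ∀ k, |∑ i ∈ range (k + 1), a i * f i| ≤ 1 + ∑ i ∈ range k, (1 - f i * f (i + 1)) / 2 ∧
      |∑ i ∈ range (k + 2), a i * f i| ≤ 1 + ∑ i ∈ range (k + 1), (1 - f i * f (i + 1)) / 2 := by
    intro k
    induction k with
    | zero =>
      constructor
      · simp only [zero_add, sum_range_one, sum_range_zero, add_zero]
        exact (hab 0).le
      · rw [sum_range_succ, sum_range_one, sum_range_one]
        rw [ha 0]
        rcases hs 0 with h | h <;> rcases hf 0 with h' | h' <;> rcases hf (0 + 1) with h'' | h'' <;>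
          simp only [h, h', h''] <;> norm_num [abs_le]
    | succ k ih =>
      refine ⟨ih.2, ?_⟩
      obtain ⟨ih1, ih2⟩ := ih
      by_cases h : f (k + 1) = f (k + 2)
      · have e : ∑ i ∈ range (k + 1 + 2), a i * f i = ∑ i ∈ range (k + 1), a i * f i := by
          rw [sum_range_succ, sum_range_succ, ha (k + 1), h]
          ring
        rw [e]
        refine ih1.trans ?_
        rw [sum_range_succ (n := k + 1), sum_range_succ (n := k)]
        have := hc k
        have := hc (k + 1)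
        linarith
      · have e : (1 - f (k + 1) * f (k + 1 + 1)) / 2 = 1 := by
          have h2 : f (k + 1 + 1) = f (k + 2) := rfl
          rw [h2]
          rcases hf (k + 1) with h3 | h3 <;> rcases hf (k + 2) with h4 | h4
          · exact absurd (h3.trans h4.symm) h
          · rw [h3, h4]; norm_num
          · rw [h3, h4]; norm_num
          · exact absurd (h3.trans h4.symm) h
        rw [sum_range_succ (n := k + 1), e, sum_range_succ (n := k + 1 + 1)]
        have h5 := hab (k + 1 + 1)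
        have h6 := abs_add_le (∑ i ∈ range (k + 1 + 1), a i * f i) (a (k + 1 + 1) * f (k + 1 + 1))
        have h7 : |∑ i ∈ range (k + 1 + 1), a i * f i| ≤
            1 + ∑ i ∈ range (k + 1), (1 - f i * f (i + 1)) / 2 := ih2
        linarith
  exact (key k).1

/-- sum over the edges in one direction inside the box of radius `L` -/
def box (G : ℤ → ℤ → ℝ) (L : ℕ) : ℝ :=
  ∑ i ∈ range (2 * L), ∑ j ∈ range (2 * L + 1), G (i - L) (j - L)

def tang (G : ℤ → ℤ → ℝ) (r : ℕ) : ℝ := ∑ i ∈ range (2 * r), (G (i - r) r + G (i - r) (-r))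

def rad (G : ℤ → ℤ → ℝ) (R : ℕ) : ℝ :=
  ∑ j ∈ range (2 * R + 1), (G R (j - R) + G (-R - 1) (j - R))

theorem peel (f : ℕ → ℝ) (m : ℕ) :
    ∑ i ∈ range (m + 2), f i = ∑ i ∈ range m, f (i + 1) + f 0 + f (m + 1) := by
  rw [sum_range_succ, sum_range_succ']

theorem box_succ (G : ℤ → ℤ → ℝ) (L : ℕ) :
    box G (L + 1) = box G L + rad G L + tang G (L + 1) := by
  unfold box rad tang
  have h1 : ∀ x : ℤ, ∑ j ∈ range (2 * (L + 1) + 1), G x (j - ((L + 1 : ℕ) : ℤ)) =
      ∑ j ∈ range (2 * L + 1), G x (j - L) + (G x ((L + 1 : ℕ) : ℤ) + G x (-((L + 1 : ℕ) : ℤ))) := by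
    intro x
    rw [show 2 * (L + 1) + 1 = (2 * L + 1) + 2 by ring,
      peel (fun j : ℕ => G x ((j : ℤ) - ((L + 1 : ℕ) : ℤ)))]
    have e1 : ∀ j : ℕ, ((j + 1 : ℕ) : ℤ) - ((L + 1 : ℕ) : ℤ) = (j : ℤ) - L := by
      intro j; push_cast; ring
    have e2 : ((0 : ℕ) : ℤ) - ((L + 1 : ℕ) : ℤ) = -((L + 1 : ℕ) : ℤ) := by push_cast; ring
    have e3 : ((2 * L + 1 + 1 : ℕ) : ℤ) - ((L + 1 : ℕ) : ℤ) = ((L + 1 : ℕ) : ℤ) := by
      push_cast; ring
    rw [sum_congr rfl fun j _ => congrArg (G x) (e1 j), congrArg (G x) e2, congrArg (G x) e3]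
    ring
  simp only [h1, sum_add_distrib]
  have h2 : ∀ f : ℤ → ℝ, ∑ i ∈ range (2 * (L + 1)), f (i - ((L + 1 : ℕ) : ℤ)) =
      ∑ i ∈ range (2 * L), f (i - L) + f (-L - 1) + f L := by
    intro f
    rw [show 2 * (L + 1) = 2 * L + 2 by ring,
      peel (fun i : ℕ => f ((i : ℤ) - ((L + 1 : ℕ) : ℤ)))]
    have e1 : ∀ j : ℕ, ((j + 1 : ℕ) : ℤ) - ((L + 1 : ℕ) : ℤ) = (j : ℤ) - L := by
      intro j; push_cast; ring
    have e2 : ((0 : ℕ) : ℤ) - ((L + 1 : ℕ) : ℤ) = -(L : ℤ) - 1 := by push_cast; ring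
    have e3 : ((2 * L + 1 : ℕ) : ℤ) - ((L + 1 : ℕ) : ℤ) = (L : ℤ) := by push_cast; ring
    rw [sum_congr rfl fun j _ => congrArg f (e1 j), congrArg f e2, congrArg f e3]
  rw [h2 fun x => ∑ j ∈ range (2 * L + 1), G x (j - L)]
  ring

theorem box_zero (G : ℤ → ℤ → ℝ) : box G 0 = 0 := by simp [box]

theorem box_eq (G : ℤ → ℤ → ℝ) (L : ℕ) :
    box G L = ∑ r ∈ range L, (rad G r + tang G (r + 1)) := by
  induction L with
  | zero => simp [box_zero]
  | succ L ih => rw [box_succ, ih, sum_range_succ]; ring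

/-! ### Sites -/

/-- the site with coordinate `x` in direction `d` and the other coordinate `y` -/
def q (d : Fin 2) (x y : ℤ) : Fin 2 → ℤ := fun i => if i = d then x else y

/-- the norm -/
def nm (v : Fin 2 → ℤ) : ℤ := max |v 0| |v 1|

theorem nm_q (d : Fin 2) (x y : ℤ) : nm (q d x y) = max |x| |y| := by
  fin_cases d
  · simp [nm, q]
  · simp [nm, q, max_comm]

theorem q_add (d : Fin 2) (x y : ℤ) : q d x y + Pi.single d 1 = q d (x + 1) y := by
  funext i
  by_cases h : i = d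
  · subst h
    simp [q]
  · simp [q, h]

theorem q_swap (d : Fin 2) (x y : ℤ) : q d x y = q (1 - d) y x := by
  funext i
  fin_cases d <;> fin_cases i <;> simp [q]

theorem q_self (v : Fin 2 → ℤ) (d : Fin 2) : v = q d (v d) (v (1 - d)) := by
  funext i
  fin_cases d <;> fin_cases i <;> simp [q]

/-- the number of changes on the segment at height `y` -/
noncomputable def hs (σ : (Fin 2 → ℤ) → ℝ) (d : Fin 2) (y : ℤ) (m : ℕ) : ℝ :=
  ∑ i ∈ range (2 * m), (1 - σ (q d (i - m) y) * σ (q d (i - m + 1) y)) / 2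

/-- the number of changes on the square of radius `r` -/
noncomputable def kk (σ : (Fin 2 → ℤ) → ℝ) (r : ℕ) : ℝ :=
  ∑ d : Fin 2, (hs σ d r r + hs σ d (-r) r)

variable {σ : (Fin 2 → ℤ) → ℝ} (hσ : ∀ v, σ v = 1 ∨ σ v = -1)
include hσ

theorem ch_nonneg (u v : Fin 2 → ℤ) : 0 ≤ (1 - σ u * σ v) / 2 := by
  rcases hσ u with h | h <;> rcases hσ v with h' | h' <;> rw [h, h'] <;> norm_num

theorem ch_le (u v : Fin 2 → ℤ) : (1 - σ u * σ v) / 2 ≤ 1 := by
  rcases hσ u with h | h <;> rcases hσ v with h' | h' <;> rw [h, h'] <;> norm_num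

theorem hs_nonneg (d : Fin 2) (y : ℤ) (m : ℕ) : 0 ≤ hs σ d y m :=
  sum_nonneg fun _ _ => ch_nonneg hσ _ _

theorem hs_le (d : Fin 2) (y : ℤ) (m : ℕ) : hs σ d y m ≤ 2 * m := by
  unfold hs
  calc _ ≤ ∑ _i ∈ range (2 * m), (1 : ℝ) := sum_le_sum fun _ _ => ch_le hσ _ _
    _ = 2 * m := by simp

theorem hs_succ (d : Fin 2) (y : ℤ) (m : ℕ) : hs σ d y m ≤ hs σ d y (m + 1) := by
  unfold hs
  rw [show 2 * (m + 1) = 2 * m + 2 by ring, peel]
  have e1 : ∀ j : ℕ, ((j + 1 : ℕ) : ℤ) - ((m + 1 : ℕ) : ℤ) = (j : ℤ) - m := by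
    intro j; push_cast; ring
  simp only [e1]
  have h1 := ch_nonneg hσ (q d (((0 : ℕ) : ℤ) - ((m + 1 : ℕ) : ℤ)) y)
    (q d (((0 : ℕ) : ℤ) - ((m + 1 : ℕ) : ℤ) + 1) y)
  have h2 := ch_nonneg hσ (q d (((2 * m : ℕ) : ℤ) - m) y) (q d (((2 * m : ℕ) : ℤ) - m + 1) y)
  linarith

theorem kk_nonneg (r : ℕ) : 0 ≤ kk σ r :=
  sum_nonneg fun _ _ => add_nonneg (hs_nonneg hσ _ _ _) (hs_nonneg hσ _ _ _)

theorem kk_le (r : ℕ) : kk σ r ≤ 8 * r := by
  unfold kk
  rw [Fin.sum_univ_two]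
  have h1 := hs_le hσ 0 r r
  have h2 := hs_le hσ 0 (-r) r
  have h3 := hs_le hσ 1 r r
  have h4 := hs_le hσ 1 (-r) r
  linarith

/-- a ring without changes is constant -/
theorem const_of_kk {r : ℕ} (h : kk σ r < 1) : ∃ c : ℝ, (c = 1 ∨ c = -1) ∧
    ∀ v, nm v = r → σ v = c := by
  have hz : ∀ d : Fin 2, ∀ y : ℤ, (y = r ∨ y = -r) → ∀ i : ℕ, i < 2 * r →
      σ (q d (i - r) y) = σ (q d (i - r + 1) y) := by
    intro d y hy i hi
    by_contra hne
    have h1 : (1 - σ (q d (i - r) y) * σ (q d (i - r + 1) y)) / 2 = 1 := by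
      rcases hσ (q d (i - r) y) with h2 | h2 <;> rcases hσ (q d (i - r + 1) y) with h3 | h3
      · exact absurd (h2.trans h3.symm) hne
      · rw [h2, h3]; norm_num
      · rw [h2, h3]; norm_num
      · exact absurd (h2.trans h3.symm) hne
    have h2 : 1 ≤ hs σ d y r := by
      unfold hs
      calc (1 : ℝ) = (1 - σ (q d (i - r) y) * σ (q d (i - r + 1) y)) / 2 := h1.symm
        _ ≤ _ := single_le_sum
          (f := fun i : ℕ => (1 - σ (q d (i - r) y) * σ (q d (i - r + 1) y)) / 2)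
          (fun _ _ => ch_nonneg hσ _ _) (mem_range.2 hi)
    have h3 : hs σ d r r + hs σ d (-r) r ≤ kk σ r := by
      unfold kk
      exact single_le_sum (f := fun d : Fin 2 => hs σ d r r + hs σ d (-r) r)
        (fun _ _ => add_nonneg (hs_nonneg hσ _ _ _) (hs_nonneg hσ _ _ _)) (mem_univ d)
    have h4 := hs_nonneg hσ d r r
    have h5 := hs_nonneg hσ d (-r) r
    rcases hy with rfl | rfl <;> linarith
  have hline : ∀ d : Fin 2, ∀ y : ℤ, (y = r ∨ y = -r) → ∀ i : ℕ, i ≤ 2 * r →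
      σ (q d (i - r) y) = σ (q d (-r) y) := by
    intro d y hy i
    induction i with
    | zero => intro _; simp
    | succ i ih =>
      intro hi
      rw [← ih (by omega), hz d y hy i (by omega)]
      congr 2
      push_cast; ring
  have hl : ∀ d : Fin 2, ∀ x y : ℤ, (y = r ∨ y = -r) → |x| ≤ r → σ (q d x y) = σ (q d (-r) y) := by
    intro d x y hy hx
    have h1 := abs_le.1 hx
    obtain ⟨i, hi⟩ := Int.eq_ofNat_of_zero_le (show 0 ≤ x + r by linarith)
    have h2 := hline d y hy i (by omega)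
    rw [← h2]
    congr 2
    omega
  refine ⟨σ (q 0 (-r) (-r)), hσ _, fun v hv => ?_⟩
  have hr : |(r : ℤ)| ≤ r := by rw [abs_of_nonneg (by positivity)]
  have hr' : |(-(r : ℤ))| ≤ r := by rw [abs_neg, abs_of_nonneg (by positivity)]
  -- corners
  have c1 : σ (q 0 r (-r)) = σ (q 0 (-r) (-r)) := hl 0 r (-r) (Or.inr rfl) hr
  have c2 : σ (q 0 (-r) r) = σ (q 0 (-r) (-r)) := by
    have := hl 1 r (-r) (Or.inr rfl) hr
    rw [q_swap 1, q_swap 1] at this
    exact this
  have h0 : |v 0| ≤ r := by rw [← hv]; exact le_max_left _ _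
  have h1 : |v 1| ≤ r := by rw [← hv]; exact le_max_right _ _
  rcases max_choice |v 0| |v 1| with h | h
  · -- |v 0| = r
    have h2 : |v 0| = r := by rw [← hv]; exact h.symm
    have h3 : v 0 = r ∨ v 0 = -r := (abs_eq (by positivity)).1 h2
    have h4 : v = q 1 (v 1) (v 0) := q_self v 1
    rw [h4, hl 1 (v 1) (v 0) h3 h1, q_swap 1]
    rcases h3 with h3 | h3
    · rw [h3]; exact c1
    · rw [h3]; rfl
  · have h2 : |v 1| = r := by rw [← hv]; exact h.symm
    have h3 : v 1 = r ∨ v 1 = -r := (abs_eq (by positivity)).1 h2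
    have h4 : v = q 0 (v 0) (v 1) := q_self v 0
    rw [h4, hl 0 (v 0) (v 1) h3 h0]
    rcases h3 with h3 | h3
    · rw [h3]; exact c2
    · rw [h3]

end Pool.Agent.X59.GC
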