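import Pool.Agent.X59.GC.A
import Pool.Agent.TH761.EB.Gen

set_option autoImplicit false
set_option linter.unusedSectionVars false

/-! The energy inequality on annuli. -/

open Finset

namespace Pool.Agent.X59.GC

open Pool.Agent.TH761.EB

/-- edges of the square lattice -/
abbrev Ed := (Fin 2 → ℤ) × Fin 2

def tl (e : Ed) : Fin 2 → ℤ := e.1

def hd (e : Ed) : Fin 2 → ℤ := e.1 + Pi.single e.2 1

theorem q_d (d : Fin 2) (x y : ℤ) : q d x y d = x := by simp [q]

theorem q_o (d : Fin 2) (x y : ℤ) : q d x y (1 - d) = y := by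
  fin_cases d <;> simp [q]

theorem hd_q (d : Fin 2) (x y : ℤ) : hd (q d x y, d) = q d (x + 1) y := q_add d x y

theorem nm_step (e : Ed) : nm (hd e) ≤ nm (tl e) + 1 ∧ nm (tl e) ≤ nm (hd e) + 1 := by
  obtain ⟨v, d⟩ := e
  obtain ⟨x, y, rfl⟩ : ∃ x y, v = q d x y := ⟨_, _, q_self v d⟩
  rw [hd_q]
  show nm (q d (x + 1) y) ≤ nm (q d x y) + 1 ∧ nm (q d x y) ≤ nm (q d (x + 1) y) + 1
  rw [nm_q, nm_q]
  rcases abs_cases x with h1 | h1 <;> rcases abs_cases (x + 1) with h2 | h2 <;> omega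

theorem fsum_box (f : Ed → ℝ) (L : ℕ) (hf : ∀ e, f e ≠ 0 → nm (tl e) ≤ L ∧ nm (hd e) ≤ L) :
    ∑ᶠ e, f e = ∑ d : Fin 2, box (fun x y => f (q d x y, d)) L := by
  classical
  set φ : Fin 2 × ℕ × ℕ → Ed :=
    fun t => (q t.1 ((t.2.1 : ℤ) - L) ((t.2.2 : ℤ) - L), t.1) with hφ
  have hinj : Function.Injective φ := by
    rintro ⟨d, i, j⟩ ⟨d', i', j'⟩ h
    obtain ⟨h1, h2⟩ := Prod.mk.inj h
    simp only at h2
    subst h2
    have h3 := congrFun h1 d
    have h4 := congrFun h1 (1 - d)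
    simp only [q_d] at h3
    simp only [q_o] at h4
    have h5 : i = i' := by omega
    have h6 : j = j' := by omega
    rw [h5, h6]
  have hS : Function.support f ⊆ ((((univ : Finset (Fin 2)) ×ˢ
      (range (2 * L) ×ˢ range (2 * L + 1))).image φ : Finset Ed) : Set Ed) := by
    rintro ⟨v, d⟩ he
    obtain ⟨h1, h2⟩ := hf _ he
    obtain ⟨x, y, rfl⟩ : ∃ x y, v = q d x y := ⟨_, _, q_self v d⟩
    rw [hd_q, nm_q] at h2
    have h1' : max |x| |y| ≤ L := by rw [← nm_q d]; exact h1
    obtain ⟨h3, h4⟩ := max_le_iff.1 h1'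
    obtain ⟨h5, -⟩ := max_le_iff.1 h2
    rw [abs_le] at h3 h4 h5
    rw [mem_coe, mem_image]
    refine ⟨(d, (x + L).toNat, (y + L).toNat), ?_, ?_⟩
    · rw [mem_product, mem_product, mem_range, mem_range]
      refine ⟨mem_univ _, ?_, ?_⟩
      · show (x + L).toNat < 2 * L
        omega
      · show (y + L).toNat < 2 * L + 1
        omega
    · show (q d (((x + L).toNat : ℤ) - L) (((y + L).toNat : ℤ) - L), d) = (q d x y, d)
      rw [show ((x + L).toNat : ℤ) - L = x by omega, show ((y + L).toNat : ℤ) - L = y by omega]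
  rw [finsum_eq_sum_of_support_subset f hS, sum_image (fun a _ b _ h => hinj h), sum_product]
  refine sum_congr rfl fun d _ => ?_
  rw [sum_product]
  rfl

/-- the annulus -/
def ann (n R : ℕ) (v : Fin 2 → ℤ) : Prop := (n : ℤ) < nm v ∧ nm v ≤ R

open Classical in
/-- constant on the annulus, `σ` elsewhere -/
noncomputable def fl (n R : ℕ) (σ : (Fin 2 → ℤ) → ℝ) (c : ℝ) (v : Fin 2 → ℤ) : ℝ :=
  if ann n R v then c else σ v

/-- the weight of an edge in the averaged inequality -/
noncomputable def be (n R : ℕ) (σ : (Fin 2 → ℤ) → ℝ) (u v : Fin 2 → ℤ) : ℝ :=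
  σ u * σ v - (fl n R σ 1 u * fl n R σ 1 v + fl n R σ (-1) u * fl n R σ (-1) v) / 2

theorem be_in {n R : ℕ} {σ : (Fin 2 → ℤ) → ℝ} {u v : Fin 2 → ℤ} (hu : ann n R u)
    (hv : ann n R v) : be n R σ u v = σ u * σ v - 1 := by
  simp only [be, fl, if_pos hu, if_pos hv]; norm_num

theorem be_l {n R : ℕ} {σ : (Fin 2 → ℤ) → ℝ} {u v : Fin 2 → ℤ} (hu : ann n R u)
    (hv : ¬ ann n R v) : be n R σ u v = σ u * σ v := by
  simp only [be, fl, if_pos hu, if_neg hv]; ring

theorem be_r {n R : ℕ} {σ : (Fin 2 → ℤ) → ℝ} {u v : Fin 2 → ℤ} (hu : ¬ ann n R u)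
    (hv : ann n R v) : be n R σ u v = σ u * σ v := by
  simp only [be, fl, if_neg hu, if_pos hv]; ring

theorem be_out {n R : ℕ} {σ : (Fin 2 → ℤ) → ℝ} {u v : Fin 2 → ℤ} (hu : ¬ ann n R u)
    (hv : ¬ ann n R v) : be n R σ u v = 0 := by
  simp only [be, fl, if_neg hu, if_neg hv]; ring

theorem mul_sign {σ : (Fin 2 → ℤ) → ℝ} (hσ : ∀ v, σ v = 1 ∨ σ v = -1) (u v : Fin 2 → ℤ) :
    σ u * σ v = 1 ∨ σ u * σ v = -1 := by
  rcases hσ u with h | h <;> rcases hσ v with h' | h' <;> rw [h, h'] <;> norm_num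

theorem be_abs {n R : ℕ} {σ : (Fin 2 → ℤ) → ℝ} (hσ : ∀ v, σ v = 1 ∨ σ v = -1)
    (u v : Fin 2 → ℤ) : |be n R σ u v| ≤ 2 := by
  by_cases hu : ann n R u <;> by_cases hv : ann n R v
  · rw [be_in hu hv]
    rcases mul_sign hσ u v with h | h <;> rw [h] <;> norm_num [abs_le]
  · rw [be_l hu hv]
    rcases mul_sign hσ u v with h | h <;> rw [h] <;> norm_num [abs_le]
  · rw [be_r hu hv]
    rcases mul_sign hσ u v with h | h <;> rw [h] <;> norm_num [abs_le]
  · rw [be_out hu hv]; norm_num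

theorem fin_nm (R : ℤ) : {v : Fin 2 → ℤ | nm v ≤ R}.Finite := by
  refine (Set.finite_Icc (fun _ => -R : Fin 2 → ℤ) (fun _ => R)).subset fun v hv => ?_
  have hv' : nm v ≤ R := hv
  obtain ⟨h0, h1⟩ := max_le_iff.1 hv'
  rw [abs_le] at h0 h1
  refine ⟨fun i => ?_, fun i => ?_⟩ <;> fin_cases i
  · exact h0.1
  · exact h1.1
  · exact h0.2
  · exact h1.2

theorem box_add (G H : ℤ → ℤ → ℝ) (L : ℕ) :
    box (fun x y => G x y + H x y) L = box G L + box H L := by
  unfold box
  rw [← sum_add_distrib]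
  exact sum_congr rfl fun _ _ => sum_add_distrib

theorem box_mul (c : ℝ) (G : ℤ → ℤ → ℝ) (L : ℕ) :
    box (fun x y => c * G x y) L = c * box G L := by
  unfold box
  rw [mul_sum]
  exact sum_congr rfl fun _ _ => (mul_sum _ _ _).symm

theorem box_const (c : ℝ) (L : ℕ) : box (fun _ _ => c) L = 2 * L * (2 * L + 1) * c := by
  unfold box
  simp only [sum_const, card_range, nsmul_eq_mul]
  push_cast
  ring

theorem box_mono {G H : ℤ → ℤ → ℝ} (h : ∀ x y, G x y ≤ H x y) (L : ℕ) : box G L ≤ box H L :=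
  sum_le_sum fun _ _ => sum_le_sum fun _ _ => h _ _

theorem box_mono' {G H : ℤ → ℤ → ℝ} {L : ℕ}
    (h : ∀ x y : ℤ, |x| ≤ L → |x + 1| ≤ L → |y| ≤ L → G x y ≤ H x y) : box G L ≤ box H L := by
  refine sum_le_sum fun i hi => sum_le_sum fun j hj => h _ _ ?_ ?_ ?_
  all_goals
    rw [mem_range] at hi hj
    rw [abs_le]
    omega

theorem energy {J : Ed → ℝ} {σ : (Fin 2 → ℤ) → ℝ} (h : GS tl hd Set.univ J σ) (n R : ℕ) :
    0 ≤ ∑ d : Fin 2, box
      (fun x y => J (q d x y, d) * be n R σ (q d x y) (q d (x + 1) y)) (R + 1) := by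
  have key : ∀ c : ℝ, (c = 1 ∨ c = -1) → 0 ≤ ∑ d : Fin 2, box (fun x y => J (q d x y, d) *
      (σ (q d x y) * σ (q d (x + 1) y) -
        fl n R σ c (q d x y) * fl n R σ c (q d (x + 1) y))) (R + 1) := by
    intro c hc
    have h1 := fsum_box (fun e => J e * (σ (tl e) * σ (hd e) -
      fl n R σ c (tl e) * fl n R σ c (hd e))) (R + 1) (by
        intro e he
        have h2 : ann n R (tl e) ∨ ann n R (hd e) := by
          by_contra hcon
          push Not at hcon
          apply he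
          simp only [fl, if_neg hcon.1, if_neg hcon.2]
          ring
        have h3 := nm_step e
        push_cast
        rcases h2 with h2 | h2 <;> have := h2.2 <;> omega)
    have h4 : ∀ d x y, (fun e => J e * (σ (tl e) * σ (hd e) -
        fl n R σ c (tl e) * fl n R σ c (hd e))) (q d x y, d) = J (q d x y, d) *
        (σ (q d x y) * σ (q d (x + 1) y) -
        fl n R σ c (q d x y) * fl n R σ c (q d (x + 1) y)) := by
      intro d x y
      show J (q d x y, d) * (σ (q d x y) * σ (hd (q d x y, d)) -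
        fl n R σ c (q d x y) * fl n R σ c (hd (q d x y, d))) = _
      rw [hd_q]
    simp only [h4] at h1
    rw [← h1]
    by_cases hne : fl n R σ c = σ
    · rw [hne]
      simp
    · refine (h.2 (fl n R σ c) ⟨fun v _ => ?_, fun v hv => absurd (Set.mem_univ v) hv⟩ ?_ hne).le
      · unfold fl
        split_ifs
        · exact hc
        · exact h.1.1 v (Set.mem_univ v)
      · refine (fin_nm R).subset fun v hv => ?_
        by_contra hcon
        apply hv
        have : ¬ ann n R v := fun h => hcon h.2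
        simp only [fl, if_neg this]
  have h1 := key 1 (Or.inl rfl)
  have h2 := key (-1) (Or.inr rfl)
  have h3 : 2 * ∑ d : Fin 2, box
      (fun x y => J (q d x y, d) * be n R σ (q d x y) (q d (x + 1) y)) (R + 1) =
      (∑ d : Fin 2, box (fun x y => J (q d x y, d) *
      (σ (q d x y) * σ (q d (x + 1) y) -
        fl n R σ 1 (q d x y) * fl n R σ 1 (q d (x + 1) y))) (R + 1)) +
      ∑ d : Fin 2, box (fun x y => J (q d x y, d) *
      (σ (q d x y) * σ (q d (x + 1) y) -
        fl n R σ (-1) (q d x y) * fl n R σ (-1) (q d (x + 1) y))) (R + 1) := by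
    rw [← sum_add_distrib, mul_sum]
    refine sum_congr rfl fun d _ => ?_
    rw [← box_mul, ← box_add]
    congr 1
    funext x y
    unfold be
    ring
  linarith

/-- alternating signs -/
noncomputable def alt (y : ℤ) : ℝ := if Even y then 1 else -1

theorem alt_succ (y : ℤ) : alt (y + 1) = -alt y := by
  unfold alt
  by_cases h : Even y
  · rw [if_pos h, if_neg (by rw [Int.even_add_one]; exact not_not.2 h)]
  · rw [if_neg h, if_pos (by rw [Int.even_add_one]; exact h), neg_neg]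

theorem alt_sign (y : ℤ) : alt y = 1 ∨ alt y = -1 := by
  unfold alt
  split_ifs
  · left; rfl
  · right; rfl

open Classical in
/-- the pattern outside the box of radius `n` -/
noncomputable def pat (n : ℕ) (e : Ed) : ℝ :=
  if nm (tl e) ≠ nm (hd e) ∧ (n : ℤ) < min (nm (tl e)) (nm (hd e)) ∧
    (20 : ℤ) ∣ (min (nm (tl e)) (nm (hd e)) - n) then alt (e.1 (1 - e.2)) else 1

/-- the inequality for couplings close to the pattern -/
theorem energy' {J : Ed → ℝ} {σ : (Fin 2 → ℤ) → ℝ} (h : GS tl hd Set.univ J σ) {n R : ℕ}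
    {a δ : ℝ} (ha : 0 < a) (hδ : 0 ≤ δ) (hδ' : δ * (16 * ((R : ℝ) + 2) ^ 2) ≤ 1)
    (hJ : ∀ e, nm (tl e) ≤ R + 1 → nm (hd e) ≤ R + 1 → ¬ (nm (tl e) ≤ n ∧ nm (hd e) ≤ n) →
      |J e - a * pat n e| ≤ a * δ) :
    -1 ≤ ∑ d : Fin 2, box
      (fun x y => pat n (q d x y, d) * be n R σ (q d x y) (q d (x + 1) y)) (R + 1) := by
  have hσ : ∀ v, σ v = 1 ∨ σ v = -1 := fun v => h.1.1 v (Set.mem_univ v)
  have h0 := energy h n R
  have h1 : ∀ d : Fin 2, box (fun x y => J (q d x y, d) *
      be n R σ (q d x y) (q d (x + 1) y)) (R + 1) ≤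
      box (fun x y => a * (pat n (q d x y, d) * be n R σ (q d x y) (q d (x + 1) y)) +
        2 * (a * δ)) (R + 1) := by
    intro d
    refine box_mono' fun x y hx hx' hy => ?_
    have haδ : 0 ≤ a * δ := by positivity
    have e1 : nm (tl (q d x y, d)) = max |x| |y| := nm_q d x y
    have e2 : nm (hd (q d x y, d)) = max |x + 1| |y| := by rw [hd_q, nm_q]
    by_cases hc : nm (tl (q d x y, d)) ≤ n ∧ nm (hd (q d x y, d)) ≤ n
    · have hb : be n R σ (q d x y) (q d (x + 1) y) = 0 := by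
        apply be_out
        · intro h3
          have h4 := h3.1
          rw [nm_q] at h4
          rw [e1] at hc
          omega
        · intro h3
          have h4 := h3.1
          rw [nm_q] at h4
          rw [e2] at hc
          omega
      simp only [hb, mul_zero]
      linarith
    · have m1 : nm (tl (q d x y, d)) ≤ R + 1 := by
        rw [e1]
        exact max_le (by exact_mod_cast hx) (by exact_mod_cast hy)
      have m2 : nm (hd (q d x y, d)) ≤ R + 1 := by
        rw [e2]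
        exact max_le (by exact_mod_cast hx') (by exact_mod_cast hy)
      have h3 := hJ (q d x y, d) m1 m2 hc
      have h4 := be_abs (n := n) (R := R) hσ (q d x y) (q d (x + 1) y)
      have h5 : (J (q d x y, d) - a * pat n (q d x y, d)) *
          be n R σ (q d x y) (q d (x + 1) y) ≤ (a * δ) * 2 := by
        refine (le_abs_self _).trans ?_
        rw [abs_mul]
        exact mul_le_mul h3 h4 (abs_nonneg _) haδ
      linarith
  have h2 := h0.trans (sum_le_sum fun d _ => h1 d)
  simp only [box_add, box_mul, box_const] at h2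
  rw [sum_add_distrib, ← mul_sum] at h2
  simp only [sum_const, card_univ, Fintype.card_fin, nsmul_eq_mul] at h2
  push_cast at h2
  set X := ∑ d : Fin 2, box
      (fun x y => pat n (q d x y, d) * be n R σ (q d x y) (q d (x + 1) y)) (R + 1) with hX
  have hR : (0 : ℝ) ≤ R := Nat.cast_nonneg R
  have h6 : 2 * (2 * ((R : ℝ) + 1) * (2 * ((R : ℝ) + 1) + 1) * (2 * (a * δ))) ≤ a := by
    have h7 : 2 * (2 * ((R : ℝ) + 1) * (2 * ((R : ℝ) + 1) + 1) * (2 * (a * δ))) ≤
        a * (δ * (16 * ((R : ℝ) + 2) ^ 2)) := by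
      have h8 : 0 ≤ a * δ := by positivity
      nlinarith [mul_nonneg h8 hR, mul_nonneg h8 (mul_nonneg hR hR)]
    nlinarith
  by_contra hcon
  push Not at hcon
  nlinarith

end Pool.Agent.X59.GC
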