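import Pool.Agent.X59.GC.B

set_option autoImplicit false
set_option linter.unusedSectionVars false

/-! The energy of the pattern. -/

open Finset

namespace Pool.Agent.X59.GC

open Pool.Agent.TH761.EB

/-- the energy density -/
noncomputable def GG (n R : ℕ) (σ : (Fin 2 → ℤ) → ℝ) (d : Fin 2) (x y : ℤ) : ℝ :=
  pat n (q d x y, d) * be n R σ (q d x y) (q d (x + 1) y)

theorem ann_q {n R : ℕ} {d : Fin 2} {x y : ℤ} :
    ann n R (q d x y) ↔ (n : ℤ) < max |x| |y| ∧ max |x| |y| ≤ R := by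
  unfold ann; rw [nm_q]

theorem pat_tang {n : ℕ} {r : ℤ} {d : Fin 2} {x y : ℤ} (hx : |x| ≤ r) (hx' : |x + 1| ≤ r)
    (hy : |y| = r) : pat n (q d x y, d) = 1 := by
  have e1 : nm (tl (q d x y, d)) = r := by
    show nm (q d x y) = r
    rw [nm_q, hy]; exact max_eq_right hx
  have e2 : nm (hd (q d x y, d)) = r := by
    rw [hd_q, nm_q, hy]; exact max_eq_right hx'
  unfold pat
  rw [if_neg]
  rw [e1, e2]
  exact fun h => h.1 rfl

theorem pat_rad {n : ℕ} {r : ℕ} {d : Fin 2} {x y : ℤ} (hx : x = r ∨ x = -r - 1)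
    (hy : |y| ≤ r) :
    pat n (q d x y, d) = if (n < r ∧ (20 : ℤ) ∣ ((r : ℤ) - n)) then alt y else 1 := by
  have e1 : nm (tl (q d x y, d)) = max |x| |y| := nm_q d x y
  have e2 : nm (hd (q d x y, d)) = max |x + 1| |y| := by rw [hd_q, nm_q]
  have e3 : nm (tl (q d x y, d)) ≠ nm (hd (q d x y, d)) ∧
      min (nm (tl (q d x y, d))) (nm (hd (q d x y, d))) = r := by
    rw [e1, e2]
    rcases hx with rfl | rfl
    · have h1 : |(r : ℤ)| = r := abs_of_nonneg (by positivity)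
      have h2 : |(r : ℤ) + 1| = r + 1 := abs_of_nonneg (by positivity)
      rw [h1, h2]
      omega
    · have h1 : |(-(r : ℤ) - 1)| = r + 1 := by
        rw [abs_of_nonpos (by linarith [Int.natCast_nonneg r])]; ring
      have h2 : |(-(r : ℤ) - 1 + 1)| = r := by
        rw [show -(r : ℤ) - 1 + 1 = -r by ring, abs_neg]
        exact abs_of_nonneg (by positivity)
      rw [h1, h2]
      omega
  unfold pat
  simp only [e3.2, q_o]
  by_cases hc : n < r ∧ (20 : ℤ) ∣ ((r : ℤ) - n)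
  · rw [if_pos hc, if_pos ⟨e3.1, by exact_mod_cast hc.1, hc.2⟩]
  · rw [if_neg hc, if_neg]
    exact fun h => hc ⟨by exact_mod_cast h.2.1, h.2.2⟩

theorem rng {r i : ℕ} (hi : i < 2 * r) :
    |(i : ℤ) - r| ≤ r ∧ |(i : ℤ) - r + 1| ≤ r := by
  rw [abs_le, abs_le]; omega

theorem rng' {r i : ℕ} (hi : i < 2 * r + 1) : |(i : ℤ) - r| ≤ r := by
  rw [abs_le]; omega

theorem absr (r : ℕ) : |(r : ℤ)| = r := abs_of_nonneg (by positivity)
theorem absr' (r : ℕ) : |(-(r : ℤ))| = r := by rw [abs_neg, absr]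
theorem absr1 (r : ℕ) : |(r : ℤ) + 1| = r + 1 := abs_of_nonneg (by positivity)
theorem absr1' (r : ℕ) : |(-(r : ℤ) - 1)| = r + 1 := by
  rw [abs_of_nonpos (by linarith [Int.natCast_nonneg r])]; ring
theorem absr2 (r : ℕ) : |(-(r : ℤ) - 1 + 1)| = r := by
  rw [show -(r : ℤ) - 1 + 1 = -r by ring, absr']

variable {σ : (Fin 2 → ℤ) → ℝ} {n R : ℕ} {d : Fin 2}

theorem GG_tang_in {r : ℕ} (h1 : n < r) (h2 : r ≤ R) {x y : ℤ} (hx : |x| ≤ r)
    (hx' : |x + 1| ≤ r) (hy : |y| = r) :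
    GG n R σ d x y = -2 * ((1 - σ (q d x y) * σ (q d (x + 1) y)) / 2) := by
  unfold GG
  rw [pat_tang hx hx' hy, be_in]
  · ring
  · rw [ann_q, hy, max_eq_right hx]; omega
  · rw [ann_q, hy, max_eq_right hx']; omega

theorem GG_tang_out {r : ℕ} (h1 : ¬ (n < r ∧ r ≤ R)) {x y : ℤ} (hx : |x| ≤ r)
    (hx' : |x + 1| ≤ r) (hy : |y| = r) : GG n R σ d x y = 0 := by
  unfold GG
  rw [be_out, mul_zero]
  · rw [ann_q, hy, max_eq_right hx]; omega
  · rw [ann_q, hy, max_eq_right hx']; omega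

theorem tang_in {r : ℕ} (h1 : n < r) (h2 : r ≤ R) :
    tang (GG n R σ d) r = -2 * (hs σ d r r + hs σ d (-r) r) := by
  unfold tang hs
  rw [← sum_add_distrib, mul_sum]
  refine sum_congr rfl fun i hi => ?_
  obtain ⟨h3, h4⟩ := rng (mem_range.1 hi)
  rw [GG_tang_in h1 h2 h3 h4 (absr r), GG_tang_in h1 h2 h3 h4 (absr' r)]
  ring

theorem tang_out {r : ℕ} (h1 : ¬ (n < r ∧ r ≤ R)) : tang (GG n R σ d) r = 0 := by
  unfold tang
  refine sum_eq_zero fun i hi => ?_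
  obtain ⟨h3, h4⟩ := rng (mem_range.1 hi)
  rw [GG_tang_out h1 h3 h4 (absr r), GG_tang_out h1 h3 h4 (absr' r), add_zero]

/-- norms of the end points of radial edges -/
theorem nm_rad {r : ℕ} {x y : ℤ} (hx : x = r ∨ x = -r - 1) (hy : |y| ≤ r) :
    (max |x| |y| = r ∧ max |x + 1| |y| = (r : ℤ) + 1) ∨
    (max |x| |y| = (r : ℤ) + 1 ∧ max |x + 1| |y| = r) := by
  rcases hx with rfl | rfl
  · left
    rw [absr, absr1]
    omega
  · right
    rw [absr1', absr2]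
    omega

theorem GG_lo {r : ℕ} (h : r < n) {x y : ℤ} (hx : x = r ∨ x = -r - 1) (hy : |y| ≤ r) :
    GG n R σ d x y = 0 := by
  unfold GG
  have := nm_rad hx hy
  rw [be_out, mul_zero] <;> rw [ann_q] <;> omega

theorem GG_edge {r : ℕ} (h : (r = n ∧ n < R) ∨ (n < r ∧ r = R)) {x y : ℤ}
    (hx : x = r ∨ x = -r - 1) (hy : |y| ≤ r) :
    GG n R σ d x y = (if (n < r ∧ (20 : ℤ) ∣ ((r : ℤ) - n)) then alt y else 1) *
      (σ (q d x y) * σ (q d (x + 1) y)) := by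
  unfold GG
  rw [pat_rad hx hy]
  congr 1
  have h1 := nm_rad hx hy
  by_cases h2 : ann n R (q d x y)
  · rw [be_l h2]
    rw [ann_q] at h2 ⊢
    omega
  · have h3 : ann n R (q d (x + 1) y) := by
      rw [ann_q] at h2 ⊢
      omega
    rw [be_r h2 h3]

theorem GG_mid {r : ℕ} (h : n < r) (h' : r < R) {x y : ℤ}
    (hx : x = r ∨ x = -r - 1) (hy : |y| ≤ r) :
    GG n R σ d x y = (if (n < r ∧ (20 : ℤ) ∣ ((r : ℤ) - n)) then alt y else 1) *
      (σ (q d x y) * σ (q d (x + 1) y) - 1) := by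
  unfold GG
  rw [pat_rad hx hy]
  have h1 := nm_rad hx hy
  rw [be_in] <;> rw [ann_q] <;> omega

theorem rad_lo {r : ℕ} (h : r < n) : rad (GG n R σ d) r = 0 := by
  unfold rad
  refine sum_eq_zero fun i hi => ?_
  have h1 := rng' (mem_range.1 hi)
  rw [GG_lo h (Or.inl rfl) h1, GG_lo h (Or.inr rfl) h1, add_zero]

theorem rad_n (hσ : ∀ v, σ v = 1 ∨ σ v = -1) (h : n < R) :
    rad (GG n R σ d) n ≤ 2 * (2 * n + 1) := by
  unfold rad
  calc _ ≤ ∑ _j ∈ range (2 * n + 1), (2 : ℝ) := by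
        refine sum_le_sum fun i hi => ?_
        have h1 := rng' (mem_range.1 hi)
        have h2 : ¬ (n < n ∧ (20 : ℤ) ∣ ((n : ℤ) - n)) := fun h => lt_irrefl _ h.1
        rw [GG_edge (Or.inl ⟨rfl, h⟩) (Or.inl rfl) h1, GG_edge (Or.inl ⟨rfl, h⟩) (Or.inr rfl) h1,
          if_neg h2]
        rcases mul_sign hσ (q d n ((i : ℤ) - n)) (q d ((n : ℤ) + 1) ((i : ℤ) - n)) with h3 | h3 <;>
        rcases mul_sign hσ (q d (-(n : ℤ) - 1) ((i : ℤ) - n))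
          (q d (-(n : ℤ) - 1 + 1) ((i : ℤ) - n)) with h4 | h4 <;>
        rw [h3, h4] <;> norm_num
    _ = 2 * (2 * n + 1) := by
        simp only [sum_const, card_range, nsmul_eq_mul]
        push_cast
        ring

theorem rad_mid (hσ : ∀ v, σ v = 1 ∨ σ v = -1) {r : ℕ} (h : n < r) (h' : r < R)
    (hi : ¬ (20 : ℤ) ∣ ((r : ℤ) - n)) : rad (GG n R σ d) r ≤ 0 := by
  unfold rad
  refine sum_nonpos fun i hi' => ?_
  have h1 := rng' (mem_range.1 hi')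
  have h2 : ¬ (n < r ∧ (20 : ℤ) ∣ ((r : ℤ) - n)) := fun h => hi h.2
  rw [GG_mid h h' (Or.inl rfl) h1, GG_mid h h' (Or.inr rfl) h1, if_neg h2]
  rcases mul_sign hσ (q d r ((i : ℤ) - r)) (q d ((r : ℤ) + 1) ((i : ℤ) - r)) with h3 | h3 <;>
  rcases mul_sign hσ (q d (-(r : ℤ) - 1) ((i : ℤ) - r))
    (q d (-(r : ℤ) - 1 + 1) ((i : ℤ) - r)) with h4 | h4 <;>
  rw [h3, h4] <;> norm_num

theorem hs_mono (hσ : ∀ v, σ v = 1 ∨ σ v = -1) (d : Fin 2) (y : ℤ) (m : ℕ) :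
    hs σ d y m ≤ hs σ d y (m + 1) := hs_succ hσ d y m

/-- one side of an interface -/
theorem side (hσ : ∀ v, σ v = 1 ∨ σ v = -1) (d : Fin 2) (x x' : ℤ) (r : ℕ) :
    |∑ j ∈ range (2 * r + 1), alt ((j : ℤ) - r) *
      (σ (q d x ((j : ℤ) - r)) * σ (q d x' ((j : ℤ) - r)))| ≤
      1 + (hs σ (1 - d) x r + hs σ (1 - d) x' r) := by
  have h1 := chain (fun j => alt ((j : ℤ) - r))
    (fun j => σ (q d x ((j : ℤ) - r)) * σ (q d x' ((j : ℤ) - r)))
    (fun i => by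
      show alt (((i + 1 : ℕ) : ℤ) - r) = -alt ((i : ℤ) - r)
      rw [show ((i + 1 : ℕ) : ℤ) - r = ((i : ℤ) - r) + 1 by push_cast; ring, alt_succ])
    (alt_sign _) (fun i => mul_sign hσ _ _) (2 * r)
  refine h1.trans ?_
  have h2 : ∑ i ∈ range (2 * r), (1 - σ (q d x ((i : ℤ) - r)) * σ (q d x' ((i : ℤ) - r)) *
      (σ (q d x (((i + 1 : ℕ) : ℤ) - r)) * σ (q d x' (((i + 1 : ℕ) : ℤ) - r)))) / 2 ≤
      hs σ (1 - d) x r + hs σ (1 - d) x' r := by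
    unfold hs
    rw [← sum_add_distrib]
    refine sum_le_sum fun i _ => ?_
    rw [show ((i + 1 : ℕ) : ℤ) - r = ((i : ℤ) - r) + 1 by push_cast; ring,
      q_swap d x, q_swap d x', q_swap d x, q_swap d x']
    rcases hσ (q (1 - d) ((i : ℤ) - r) x) with h3 | h3 <;>
    rcases hσ (q (1 - d) ((i : ℤ) - r) x') with h4 | h4 <;>
    rcases hσ (q (1 - d) ((i : ℤ) - r + 1) x) with h5 | h5 <;>
    rcases hσ (q (1 - d) ((i : ℤ) - r + 1) x') with h6 | h6 <;>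
    rw [h3, h4, h5, h6] <;> norm_num
  have h3 : ∑ i ∈ range (2 * r), (1 - (fun j : ℕ => σ (q d x ((j : ℤ) - r)) *
      σ (q d x' ((j : ℤ) - r))) i * (fun j : ℕ => σ (q d x ((j : ℤ) - r)) *
      σ (q d x' ((j : ℤ) - r))) (i + 1)) / 2 ≤ hs σ (1 - d) x r + hs σ (1 - d) x' r := h2
  linarith

theorem altsum (r : ℕ) : |∑ j ∈ range (2 * r + 1), alt ((j : ℤ) - r)| ≤ 1 := by
  have h1 := chain (fun j => alt ((j : ℤ) - r)) (fun _ => 1)
    (fun i => by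
      show alt (((i + 1 : ℕ) : ℤ) - r) = -alt ((i : ℤ) - r)
      rw [show ((i + 1 : ℕ) : ℤ) - r = ((i : ℤ) - r) + 1 by push_cast; ring, alt_succ])
    (alt_sign _) (fun i => Or.inl rfl) (2 * r)
  simpa using h1

theorem rad_top (hσ : ∀ v, σ v = 1 ∨ σ v = -1) (h : n < R) (hi : (20 : ℤ) ∣ ((R : ℤ) - n)) :
    rad (GG n R σ d) R ≤ 2 + ((hs σ (1 - d) R R + hs σ (1 - d) (-R) R) +
      (hs σ (1 - d) ((R + 1 : ℕ) : ℤ) (R + 1) + hs σ (1 - d) (-((R + 1 : ℕ) : ℤ)) (R + 1))) := by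
  unfold rad
  have e : ∀ j ∈ range (2 * R + 1), GG n R σ d R ((j : ℤ) - R) + GG n R σ d (-R - 1) ((j : ℤ) - R)
      = alt ((j : ℤ) - R) * (σ (q d R ((j : ℤ) - R)) * σ (q d (((R + 1 : ℕ) : ℤ)) ((j : ℤ) - R))) +
      alt ((j : ℤ) - R) *
        (σ (q d (-((R + 1 : ℕ) : ℤ)) ((j : ℤ) - R)) * σ (q d (-R) ((j : ℤ) - R))) := by
    intro j hj
    have h1 := rng' (mem_range.1 hj)
    rw [GG_edge (Or.inr ⟨h, rfl⟩) (Or.inl rfl) h1, GG_edge (Or.inr ⟨h, rfl⟩) (Or.inr rfl) h1,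
      if_pos ⟨h, hi⟩, show -(R : ℤ) - 1 + 1 = -R by ring,
      show -(R : ℤ) - 1 = -((R + 1 : ℕ) : ℤ) by push_cast; ring,
      show (R : ℤ) + 1 = ((R + 1 : ℕ) : ℤ) by push_cast; ring]
  rw [sum_congr rfl e, sum_add_distrib]
  have h1 := (abs_le.1 (side hσ d R ((R + 1 : ℕ) : ℤ) R)).2
  have h2 := (abs_le.1 (side hσ d (-((R + 1 : ℕ) : ℤ)) (-R) R)).2
  have h3 := hs_mono hσ (1 - d) ((R + 1 : ℕ) : ℤ) R
  have h4 := hs_mono hσ (1 - d) (-((R + 1 : ℕ) : ℤ)) R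
  linarith

theorem rad_int (hσ : ∀ v, σ v = 1 ∨ σ v = -1) {r : ℕ} (h : n < r) (h' : r < R)
    (hi : (20 : ℤ) ∣ ((r : ℤ) - n)) :
    rad (GG n R σ d) r ≤ 4 + ((hs σ (1 - d) r r + hs σ (1 - d) (-r) r) +
      (hs σ (1 - d) ((r + 1 : ℕ) : ℤ) (r + 1) + hs σ (1 - d) (-((r + 1 : ℕ) : ℤ)) (r + 1))) := by
  unfold rad
  have e : ∀ j ∈ range (2 * r + 1), GG n R σ d r ((j : ℤ) - r) + GG n R σ d (-r - 1) ((j : ℤ) - r)
      = (alt ((j : ℤ) - r) * (σ (q d r ((j : ℤ) - r)) * σ (q d (((r + 1 : ℕ) : ℤ)) ((j : ℤ) - r))) +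
      alt ((j : ℤ) - r) *
        (σ (q d (-((r + 1 : ℕ) : ℤ)) ((j : ℤ) - r)) * σ (q d (-r) ((j : ℤ) - r)))) +
      (-2) * alt ((j : ℤ) - r) := by
    intro j hj
    have h1 := rng' (mem_range.1 hj)
    rw [GG_mid h h' (Or.inl rfl) h1, GG_mid h h' (Or.inr rfl) h1,
      if_pos ⟨h, hi⟩, show -(r : ℤ) - 1 + 1 = -r by ring,
      show -(r : ℤ) - 1 = -((r + 1 : ℕ) : ℤ) by push_cast; ring,
      show (r : ℤ) + 1 = ((r + 1 : ℕ) : ℤ) by push_cast; ring]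
    ring
  rw [sum_congr rfl e, sum_add_distrib, sum_add_distrib, ← mul_sum]
  have h1 := (abs_le.1 (side hσ d r ((r + 1 : ℕ) : ℤ) r)).2
  have h2 := (abs_le.1 (side hσ d (-((r + 1 : ℕ) : ℤ)) (-r) r)).2
  have h3 := hs_mono hσ (1 - d) ((r + 1 : ℕ) : ℤ) r
  have h4 := hs_mono hσ (1 - d) (-((r + 1 : ℕ) : ℤ)) r
  have h5 := (abs_le.1 (altsum r)).1
  linarith

/-- the energy of a ring of edges -/
noncomputable def En (n R : ℕ) (σ : (Fin 2 → ℤ) → ℝ) (r : ℕ) : ℝ :=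
  ∑ d : Fin 2, (rad (GG n R σ d) r + tang (GG n R σ d) (r + 1))

theorem kk_swap (r : ℕ) : ∑ d : Fin 2, (hs σ (1 - d) r r + hs σ (1 - d) (-r) r) = kk σ r := by
  unfold kk
  rw [Fin.sum_univ_two, Fin.sum_univ_two]
  have e0 : (1 : Fin 2) - 0 = 1 := rfl
  have e1 : (1 : Fin 2) - 1 = 0 := rfl
  rw [e0, e1]
  ring

theorem En_lo {r : ℕ} (h : r < n) : En n R σ r = 0 := by
  unfold En
  refine sum_eq_zero fun d _ => ?_
  rw [rad_lo h, tang_out (by omega), add_zero]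

theorem En_n (hσ : ∀ v, σ v = 1 ∨ σ v = -1) (h : n < R) :
    En n R σ n ≤ 4 * (2 * n + 1) - 2 * kk σ (n + 1) := by
  unfold En
  have h1 : ∀ d : Fin 2, rad (GG n R σ d) n + tang (GG n R σ d) (n + 1) ≤ 2 * (2 * n + 1) +
      -2 * (hs σ d ((n + 1 : ℕ) : ℤ) (n + 1) + hs σ d (-((n + 1 : ℕ) : ℤ)) (n + 1)) := by
    intro d
    rw [tang_in (by omega) (by omega)]
    have := rad_n (d := d) hσ h
    linarith
  refine (sum_le_sum fun d _ => h1 d).trans (le_of_eq ?_)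
  rw [sum_add_distrib]
  have e : ∑ d : Fin 2, -2 * (hs σ d ((n + 1 : ℕ) : ℤ) (n + 1) +
      hs σ d (-((n + 1 : ℕ) : ℤ)) (n + 1)) = -2 * kk σ (n + 1) := by
    rw [← mul_sum]
    rfl
  rw [e]
  simp only [sum_const, card_univ, Fintype.card_fin, nsmul_eq_mul]
  push_cast
  ring

theorem En_mid (hσ : ∀ v, σ v = 1 ∨ σ v = -1) {r : ℕ} (h : n < r) (h' : r < R)
    (hi : ¬ (20 : ℤ) ∣ ((r : ℤ) - n)) : En n R σ r ≤ -2 * kk σ (r + 1) := by
  unfold En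
  have h1 : ∀ d : Fin 2, rad (GG n R σ d) r + tang (GG n R σ d) (r + 1) ≤
      -2 * (hs σ d ((r + 1 : ℕ) : ℤ) (r + 1) + hs σ d (-((r + 1 : ℕ) : ℤ)) (r + 1)) := by
    intro d
    rw [tang_in (by omega) (by omega)]
    have := rad_mid (d := d) hσ h h' hi
    linarith
  refine (sum_le_sum fun d _ => h1 d).trans (le_of_eq ?_)
  rw [← mul_sum]
  rfl

theorem En_int (hσ : ∀ v, σ v = 1 ∨ σ v = -1) {r : ℕ} (h : n < r) (h' : r < R)
    (hi : (20 : ℤ) ∣ ((r : ℤ) - n)) : En n R σ r ≤ 8 + kk σ r - kk σ (r + 1) := by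
  unfold En
  have h1 : ∀ d : Fin 2, rad (GG n R σ d) r + tang (GG n R σ d) (r + 1) ≤
      (4 + ((hs σ (1 - d) r r + hs σ (1 - d) (-r) r) +
      (hs σ (1 - d) ((r + 1 : ℕ) : ℤ) (r + 1) + hs σ (1 - d) (-((r + 1 : ℕ) : ℤ)) (r + 1)))) +
      -2 * (hs σ d ((r + 1 : ℕ) : ℤ) (r + 1) + hs σ d (-((r + 1 : ℕ) : ℤ)) (r + 1)) := by
    intro d
    rw [tang_in (by omega) (by omega)]
    have := rad_int (d := d) hσ h h' hi
    linarith
  refine (sum_le_sum fun d _ => h1 d).trans (le_of_eq ?_)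
  rw [sum_add_distrib, sum_add_distrib, sum_add_distrib, kk_swap, kk_swap, ← mul_sum]
  have e : ∑ d : Fin 2, (hs σ d ((r + 1 : ℕ) : ℤ) (r + 1) +
      hs σ d (-((r + 1 : ℕ) : ℤ)) (r + 1)) = kk σ (r + 1) := rfl
  rw [e]
  simp only [sum_const, card_univ, Fintype.card_fin, nsmul_eq_mul]
  push_cast
  ring

theorem En_top (hσ : ∀ v, σ v = 1 ∨ σ v = -1) (h : n < R)
    (hi : (20 : ℤ) ∣ ((R : ℤ) - n)) : En n R σ R ≤ 4 + kk σ R + kk σ (R + 1) := by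
  unfold En
  have h1 : ∀ d : Fin 2, rad (GG n R σ d) R + tang (GG n R σ d) (R + 1) ≤
      (2 + ((hs σ (1 - d) R R + hs σ (1 - d) (-R) R) +
      (hs σ (1 - d) ((R + 1 : ℕ) : ℤ) (R + 1) +
        hs σ (1 - d) (-((R + 1 : ℕ) : ℤ)) (R + 1)))) := by
    intro d
    rw [tang_out (by omega), add_zero]
    exact rad_top (d := d) hσ h hi
  refine (sum_le_sum fun d _ => h1 d).trans (le_of_eq ?_)
  rw [sum_add_distrib, sum_add_distrib, kk_swap, kk_swap]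
  simp only [sum_const, card_univ, Fintype.card_fin, nsmul_eq_mul]
  push_cast
  ring

/-- number of changes on the rings `n < r ≤ n + t` -/
noncomputable def SS (σ : (Fin 2 → ℤ) → ℝ) (n t : ℕ) : ℝ := ∑ i ∈ range t, kk σ (n + 1 + i)

theorem SS_succ (t : ℕ) : SS σ n (t + 1) = SS σ n t + kk σ (n + 1 + t) := sum_range_succ _ _

/-- the partial sums of the energy -/
theorem partial_sum (hσ : ∀ v, σ v = 1 ∨ σ v = -1) (t : ℕ) (ht : n + t + 1 ≤ R) :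
    ∑ r ∈ range (n + t + 1), En n R σ r ≤
      4 * (2 * n + 1) + 8 * ((t / 20 : ℕ) : ℝ) - SS σ n (t + 1) -
        (if (t ≠ 0 ∧ 20 ∣ t) then 0 else kk σ (n + t + 1)) := by
  induction t with
  | zero =>
    have h1 : ∑ r ∈ range n, En n R σ r = 0 := sum_eq_zero fun r hr => En_lo (mem_range.1 hr)
    rw [add_zero, sum_range_succ, h1, if_neg (by simp), SS_succ]
    have h2 := En_n (R := R) hσ (n := n) (by omega)
    have h3 : SS σ n 0 = 0 := rfl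
    rw [h3]
    simp only [Nat.zero_div, Nat.cast_zero, add_zero]
    linarith
  | succ t ih =>
    have ih := ih (by omega)
    rw [show n + (t + 1) + 1 = (n + t + 1) + 1 by ring, sum_range_succ, SS_succ,
      show n + 1 + (t + 1) = n + t + 1 + 1 by ring]
    have hk := kk_nonneg hσ (n + t + 1)
    by_cases hi : 20 ∣ (t + 1)
    · have h1 : (20 : ℤ) ∣ (((n + t + 1 : ℕ) : ℤ) - n) := by
        rw [show ((n + t + 1 : ℕ) : ℤ) - n = ((t + 1 : ℕ) : ℤ) by push_cast; ring]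
        exact_mod_cast hi
      have h2 := En_int (R := R) hσ (r := n + t + 1) (n := n) (by omega) (by omega) h1
      rw [if_neg (by rintro ⟨h3, h4⟩; omega)] at ih
      rw [if_pos ⟨by omega, hi⟩]
      have h3 : ((t + 1) / 20 : ℕ) = t / 20 + 1 := by omega
      rw [h3]
      push_cast at ih ⊢
      linarith
    · have h1 : ¬ (20 : ℤ) ∣ (((n + t + 1 : ℕ) : ℤ) - n) := by
        rw [show ((n + t + 1 : ℕ) : ℤ) - n = ((t + 1 : ℕ) : ℤ) by push_cast; ring]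
        intro h
        exact hi (by exact_mod_cast h)
      have h2 := En_mid (R := R) hσ (r := n + t + 1) (n := n) (by omega) (by omega) h1
      rw [if_neg (by rintro ⟨h3, h4⟩; exact hi h4)]
      have h3 : ((t + 1) / 20 : ℕ) = t / 20 := by omega
      rw [h3]
      have h4 : 0 ≤ (if (t ≠ 0 ∧ 20 ∣ t) then 0 else kk σ (n + t + 1)) := by
        split_ifs
        · exact le_refl 0
        · exact hk
      linarith

/-- the total energy for `R = n + 20 j` -/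
theorem total (hσ : ∀ v, σ v = 1 ∨ σ v = -1) {j : ℕ} (hj : 1 ≤ j) :
    ∑ d : Fin 2, box (GG n (n + 20 * j) σ d) (n + 20 * j + 1) ≤
      8 * n + 8 * j - SS σ n (20 * j) + kk σ (n + 20 * j + 1) := by
  have h1 : ∑ d : Fin 2, box (GG n (n + 20 * j) σ d) (n + 20 * j + 1) =
      ∑ r ∈ range (n + 20 * j + 1), En n (n + 20 * j) σ r := by
    simp only [box_eq]
    rw [sum_comm]
    rfl
  rw [h1, sum_range_succ]
  obtain ⟨j, rfl⟩ : ∃ i, j = i + 1 := ⟨j - 1, by omega⟩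
  have h2 := partial_sum (n := n) (R := n + 20 * (j + 1)) hσ (20 * j + 19) (by omega)
  have h3 := En_top (n := n) (R := n + 20 * (j + 1)) hσ (by omega)
    (by push_cast; exact ⟨(j : ℤ) + 1, by ring⟩)
  rw [if_neg (by rintro ⟨_, h4⟩; omega), show (20 * j + 19) / 20 = j by omega,
    show n + (20 * j + 19) + 1 = n + 20 * (j + 1) by ring,
    show 20 * j + 19 + 1 = 20 * (j + 1) by ring] at h2
  push_cast at h2 h3 ⊢
  linarith

end Pool.Agent.X59.GC
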