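import Pool.Agent.X59.GC.C

set_option autoImplicit false
set_option linter.unusedSectionVars false

/-! Ground states of couplings close to the pattern agree on the box. -/

open Finset Filter

namespace Pool.Agent.X59.GC

open Pool.Agent.TH761.EB

theorem exists_i (A : ℕ) : ∃ i : ℕ, 8 * ((A : ℝ) + 20 * i) ^ 2 < 2 ^ i := by
  have h1 := tendsto_pow_const_div_const_pow_of_one_lt 2 (show (1 : ℝ) < 2 by norm_num)
  have h2 : (0 : ℝ) < 1 / (8 * ((A : ℝ) + 20) ^ 2) := by positivity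
  obtain ⟨i, hi, hi1⟩ := ((h1.eventually (gt_mem_nhds h2)).and (eventually_ge_atTop 1)).exists
  refine ⟨i, ?_⟩
  have h3 : (1 : ℝ) ≤ i := by exact_mod_cast hi1
  have h4 : (A : ℝ) + 20 * i ≤ ((A : ℝ) + 20) * i := by nlinarith [Nat.cast_nonneg (α := ℝ) A]
  have h5 : ((A : ℝ) + 20 * i) ^ 2 ≤ (((A : ℝ) + 20) * i) ^ 2 :=
    pow_le_pow_left₀ (by positivity) h4 2
  rw [div_lt_div_iff₀ (by positivity) (by positivity)] at hi
  nlinarith

/-- number of blocks of twenty rings -/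
def MM (n : ℕ) : ℕ := 4 * n + 5

/-- number of doublings -/
noncomputable def i0 (n : ℕ) : ℕ := Classical.choose (exists_i (n + 20 * MM n))

theorem i0_spec (n : ℕ) : 8 * (((n + 20 * MM n : ℕ) : ℝ) + 20 * i0 n) ^ 2 < 2 ^ (i0 n) :=
  Classical.choose_spec (exists_i (n + 20 * MM n))

/-- radius of the pattern -/
noncomputable def LL (n : ℕ) : ℕ := n + 20 * (MM n + i0 n)

/-- precision of the pattern -/
noncomputable def dl (n : ℕ) : ℝ := 1 / (16 * ((LL n : ℝ) + 2) ^ 2)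

theorem dl_pos (n : ℕ) : 0 < dl n := by unfold dl; positivity

/-- the couplings are close to `a` times the pattern outside the box of radius `n` -/
def Near (a : ℝ) (n : ℕ) (J : Ed → ℝ) : Prop :=
  ∀ e, nm (tl e) ≤ LL n → nm (hd e) ≤ LL n → ¬ (nm (tl e) ≤ n ∧ nm (hd e) ≤ n) →
    |J e - a * pat n e| < a * dl n

variable {J : Ed → ℝ} {σ τ : (Fin 2 → ℤ) → ℝ} {n : ℕ} {a : ℝ}

theorem kk_low (ha : 0 < a) (hJ : Near a n J) (h : GS tl hd Set.univ J σ) {j : ℕ} (hj : 1 ≤ j)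
    (hj' : n + 20 * j + 1 ≤ LL n) :
    SS σ n (20 * j) ≤ 8 * n + 8 * j + 1 + kk σ (n + 20 * j + 1) := by
  have hσ : ∀ v, σ v = 1 ∨ σ v = -1 := fun v => h.1.1 v (Set.mem_univ v)
  have h1 := energy' h (n := n) (R := n + 20 * j) ha (dl_pos n).le (by
    have h2 : ((n + 20 * j : ℕ) : ℝ) ≤ LL n := by exact_mod_cast (by omega)
    have h3 : (((n + 20 * j : ℕ) : ℝ) + 2) ^ 2 ≤ ((LL n : ℝ) + 2) ^ 2 :=
      pow_le_pow_left₀ (by positivity) (by linarith) 2
    have h4 : dl n * (16 * ((LL n : ℝ) + 2) ^ 2) = 1 := by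
      unfold dl
      field_simp
    calc dl n * (16 * (((n + 20 * j : ℕ) : ℝ) + 2) ^ 2) ≤
        dl n * (16 * ((LL n : ℝ) + 2) ^ 2) :=
          mul_le_mul_of_nonneg_left (by linarith) (dl_pos n).le
      _ = 1 := h4) (by
    intro e h2 h3 h4
    refine (hJ e ?_ ?_ h4).le
    · refine h2.trans ?_
      exact_mod_cast hj'
    · refine h3.trans ?_
      exact_mod_cast hj')
  have h2 := total (n := n) hσ hj
  have h3 : (-1 : ℝ) ≤ ∑ d : Fin 2, box (GG n (n + 20 * j) σ d) (n + 20 * j + 1) := h1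
  linarith

theorem SS_mono (hσ : ∀ v, σ v = 1 ∨ σ v = -1) {s t : ℕ} (h : s ≤ t) : SS σ n s ≤ SS σ n t :=
  sum_le_sum_of_subset_of_nonneg (range_mono h) fun _ _ _ => kk_nonneg hσ _

theorem SS_le (hσ : ∀ v, σ v = 1 ∨ σ v = -1) (t : ℕ) : SS σ n t ≤ 8 * ((n : ℝ) + t) ^ 2 := by
  unfold SS
  calc _ ≤ ∑ _i ∈ range t, 8 * ((n : ℝ) + t) := by
        refine sum_le_sum fun i hi => ?_
        refine (kk_le hσ _).trans ?_
        have h1 : n + 1 + i ≤ n + t := by have := mem_range.1 hi; omega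
        have h2 : ((n + 1 + i : ℕ) : ℝ) ≤ ((n + t : ℕ) : ℝ) := by exact_mod_cast h1
        push_cast at h2 ⊢
        linarith
    _ = t * (8 * ((n : ℝ) + t)) := by simp
    _ ≤ 8 * ((n : ℝ) + t) ^ 2 := by
        have hn : (0 : ℝ) ≤ n := Nat.cast_nonneg n
        have ht : (0 : ℝ) ≤ t := Nat.cast_nonneg t
        nlinarith [mul_nonneg hn ht, mul_nonneg hn hn]

theorem not_many (ha : 0 < a) (hJ : Near a n J) (h : GS tl hd Set.univ J σ) :
    SS σ n (20 * MM n) < 10 * MM n := by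
  have hσ : ∀ v, σ v = 1 ∨ σ v = -1 := fun v => h.1.1 v (Set.mem_univ v)
  by_contra hcon
  push Not at hcon
  have key : ∀ i, i ≤ i0 n →
      (2 : ℝ) ^ i + 8 * ((MM n : ℝ) + i) + 8 * n + 9 ≤ SS σ n (20 * (MM n + i)) := by
    intro i
    induction i with
    | zero =>
      intro _
      have e : (MM n : ℝ) = 4 * n + 5 := by unfold MM; push_cast; ring
      simp only [pow_zero, Nat.cast_zero, add_zero]
      linarith
    | succ i ih =>
      intro hi
      have ih := ih (by omega)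
      have h1 := kk_low ha hJ h (j := MM n + i) (by unfold MM; omega) (by unfold LL; omega)
      have h2 : SS σ n (20 * (MM n + i) + 1) ≤ SS σ n (20 * (MM n + (i + 1))) :=
        SS_mono hσ (by omega)
      rw [SS_succ, show n + 1 + 20 * (MM n + i) = n + 20 * (MM n + i) + 1 by ring] at h2
      rw [pow_succ]
      push_cast at h1 ⊢
      linarith
  have h1 := key (i0 n) le_rfl
  have h2 := SS_le (n := n) hσ (20 * (MM n + i0 n))
  have h3 := i0_spec n
  have h4 : ((n : ℝ) + ((20 * (MM n + i0 n) : ℕ) : ℝ)) =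
      (((n + 20 * MM n : ℕ) : ℝ) + 20 * i0 n) := by push_cast; ring
  rw [h4] at h2
  have h5 : (0 : ℝ) ≤ MM n := Nat.cast_nonneg _
  have h6 : (0 : ℝ) ≤ i0 n := Nat.cast_nonneg _
  have h7 : (0 : ℝ) ≤ n := Nat.cast_nonneg _
  linarith

open Classical in
theorem few (ha : 0 < a) (hJ : Near a n J) (h : GS tl hd Set.univ J σ) :
    ((range (20 * MM n)).filter fun t => 1 ≤ kk σ (n + 1 + t)).card < 10 * MM n := by
  have hσ : ∀ v, σ v = 1 ∨ σ v = -1 := fun v => h.1.1 v (Set.mem_univ v)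
  have h1 := not_many ha hJ h
  have h2 : (((range (20 * MM n)).filter fun t => 1 ≤ kk σ (n + 1 + t)).card : ℝ) ≤
      SS σ n (20 * MM n) := by
    calc (((range (20 * MM n)).filter fun t => 1 ≤ kk σ (n + 1 + t)).card : ℝ) =
        ∑ _t ∈ (range (20 * MM n)).filter (fun t => 1 ≤ kk σ (n + 1 + t)), (1 : ℝ) := by simp
      _ ≤ ∑ t ∈ (range (20 * MM n)).filter (fun t => 1 ≤ kk σ (n + 1 + t)),
          kk σ (n + 1 + t) := sum_le_sum fun t ht => (mem_filter.1 ht).2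
      _ ≤ _ := sum_le_sum_of_subset_of_nonneg (filter_subset _ _) fun _ _ _ => kk_nonneg hσ _
  have h3 : (((range (20 * MM n)).filter fun t => 1 ≤ kk σ (n + 1 + t)).card : ℝ) <
      ((10 * MM n : ℕ) : ℝ) := by
    push_cast
    linarith
  exact_mod_cast h3

theorem common (ha : 0 < a) (hJ : Near a n J) (h : GS tl hd Set.univ J σ)
    (h' : GS tl hd Set.univ J τ) : ∃ t : ℕ, kk σ (n + 1 + t) < 1 ∧ kk τ (n + 1 + t) < 1 := by
  classical
  have h1 := few ha hJ h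
  have h2 := few ha hJ h'
  by_contra hcon
  push Not at hcon
  have h3 : range (20 * MM n) ⊆ ((range (20 * MM n)).filter fun t => 1 ≤ kk σ (n + 1 + t)) ∪
      ((range (20 * MM n)).filter fun t => 1 ≤ kk τ (n + 1 + t)) := by
    intro t ht
    rw [mem_union, mem_filter, mem_filter]
    by_cases h4 : kk σ (n + 1 + t) < 1
    · exact Or.inr ⟨ht, hcon t h4⟩
    · exact Or.inl ⟨ht, not_lt.1 h4⟩
  have h5 := card_le_card h3
  have h6 := card_union_le ((range (20 * MM n)).filter fun t => 1 ≤ kk σ (n + 1 + t))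
      ((range (20 * MM n)).filter fun t => 1 ≤ kk τ (n + 1 + t))
  rw [card_range] at h5
  omega

/-- Two ground states agree on the box up to a sign. -/
theorem unique_near (ha : 0 < a) (hJ : Near a n J) (h : GS tl hd Set.univ J σ)
    (h' : GS tl hd Set.univ J τ) :
    ∃ c : ℝ, (c = 1 ∨ c = -1) ∧ ∀ v, nm v ≤ n → σ v = c * τ v := by
  have hσ : ∀ v, σ v = 1 ∨ σ v = -1 := fun v => h.1.1 v (Set.mem_univ v)
  have hτ : ∀ v, τ v = 1 ∨ τ v = -1 := fun v => h'.1.1 v (Set.mem_univ v)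
  obtain ⟨t, h1, h2⟩ := common ha hJ h h'
  obtain ⟨c1, hc1, h3⟩ := const_of_kk hσ h1
  obtain ⟨c2, hc2, h4⟩ := const_of_kk hτ h2
  have hring : ∀ v, nm v = ((n + 1 + t : ℕ) : ℤ) → σ v = c1 * c2 * τ v := by
    intro v hv
    rw [h3 v hv, h4 v hv]
    rcases hc2 with h5 | h5 <;> rw [h5] <;> ring
  have hc : c1 * c2 = 1 ∨ c1 * c2 = -1 := by
    rcases hc1 with h5 | h5 <;> rcases hc2 with h6 | h6 <;> rw [h5, h6] <;> norm_num
  refine ⟨c1 * c2, hc, fun v hv => ?_⟩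
  refine agree h h' hc (Λ := {v | nm v ≤ ((n + 1 + t : ℕ) : ℤ)}) ?_ ?_ ?_ v ?_
  · rw [Set.univ_inter]
    exact fin_nm _
  · intro e he1 he2
    have he1' : nm (tl e) ≤ ((n + 1 + t : ℕ) : ℤ) := he1
    have he2' : ¬ nm (hd e) ≤ ((n + 1 + t : ℕ) : ℤ) := he2
    have := nm_step e
    exact hring _ (by omega)
  · intro e he1 he2
    have he1' : nm (hd e) ≤ ((n + 1 + t : ℕ) : ℤ) := he1
    have he2' : ¬ nm (tl e) ≤ ((n + 1 + t : ℕ) : ℤ) := he2
    have := nm_step e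
    exact hring _ (by omega)
  · show nm v ≤ ((n + 1 + t : ℕ) : ℤ)
    push_cast
    omega

/-- agreement on arbitrarily large boxes -/
theorem global {σ τ : (Fin 2 → ℤ) → ℝ} (hσ : ∀ v, σ v = 1 ∨ σ v = -1)
    (hτ : ∀ v, τ v = 1 ∨ τ v = -1)
    (h : ∀ n : ℕ, ∃ m ≥ n, ∃ c : ℝ, (c = 1 ∨ c = -1) ∧ ∀ v, nm v ≤ (m : ℤ) → σ v = c * τ v) :
    τ = σ ∨ τ = -σ := by
  have key : ∀ v, σ v * τ v = σ 0 * τ 0 := by
    intro v
    obtain ⟨m, hm, c, hc, h1⟩ := h (nm v).toNat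
    have h2 : nm v ≤ (m : ℤ) := by omega
    have h3 : nm (0 : Fin 2 → ℤ) ≤ (m : ℤ) := by
      have : nm (0 : Fin 2 → ℤ) = 0 := by simp [nm]
      rw [this]; positivity
    rw [h1 v h2, h1 0 h3]
    have e : ∀ w, τ w * τ w = 1 := by
      intro w
      rcases hτ w with h4 | h4 <;> rw [h4] <;> norm_num
    rw [mul_assoc, mul_assoc, e, e]
  have e : ∀ w, σ w * σ w = 1 := by
    intro w
    rcases hσ w with h4 | h4 <;> rw [h4] <;> norm_num
  have h5 : σ 0 * τ 0 = 1 ∨ σ 0 * τ 0 = -1 := by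
    rcases hσ 0 with h | h <;> rcases hτ 0 with h' | h' <;> rw [h, h'] <;> norm_num
  rcases h5 with h5 | h5
  · left
    funext v
    have h6 := key v
    rw [h5] at h6
    calc τ v = (σ v * σ v) * τ v := by rw [e, one_mul]
      _ = σ v * (σ v * τ v) := by ring
      _ = σ v := by rw [h6, mul_one]
  · right
    funext v
    have h6 := key v
    rw [h5] at h6
    calc τ v = (σ v * σ v) * τ v := by rw [e, one_mul]
      _ = σ v * (σ v * τ v) := by ring
      _ = (-σ) v := by rw [h6]; simp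

end Pool.Agent.X59.GC
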