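import Pool.Agent.X59.GC.D
import Pool.Agent.X59.GC.E

set_option autoImplicit false
set_option linter.unusedSectionVars false

/-! Typical couplings of the plane have one pair of ground states. -/

open Finset Filter Topology MeasureTheory

namespace Pool.Agent.X59.GC

open Pool.Agent.TH761.EB

theorem fib2 (x : Fin 2 → ℤ) : {e : Ed | tl e = x ∨ hd e = x}.Finite := by
  classical
  refine (Finset.finite_toSet (((Finset.univ : Finset (Fin 2)).image fun i => (x, i)) ∪
    ((Finset.univ : Finset (Fin 2)).image fun i => (x - Pi.single i 1, i)))).subset ?_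
  rintro ⟨v, i⟩ (h | h)
  · rw [Finset.mem_coe, Finset.mem_union, Finset.mem_image]
    left
    exact ⟨i, Finset.mem_univ _, by rw [← h]; rfl⟩
  · rw [Finset.mem_coe, Finset.mem_union, Finset.mem_image, Finset.mem_image]
    right
    refine ⟨i, Finset.mem_univ _, ?_⟩
    rw [← h]
    simp [hd]

theorem front2 (D : Finset (Fin 2 → ℤ)) (hD : D.Nonempty) :
    ∃ e : Ed, tl e ∈ D ∧ hd e ∈ (Set.univ : Set (Fin 2 → ℤ)) ∧ hd e ∉ D := by
  obtain ⟨v, hv, hmax⟩ := exists_max_image D (fun v => v 0) hD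
  refine ⟨(v, 0), hv, Set.mem_univ _, fun h => ?_⟩
  have h1 := hmax _ h
  have h2 : hd (v, 0) 0 = v 0 + 1 := by simp [hd]
  rw [h2] at h1
  omega

theorem fin_ed (L : ℤ) : {e : Ed | nm (tl e) ≤ L}.Finite := by
  refine ((fin_nm L).prod (Set.finite_univ : (Set.univ : Set (Fin 2)).Finite)).subset ?_
  intro e he
  exact ⟨he, Set.mem_univ _⟩

theorem near_open (K : Set ℝ) (a : ℝ) (n : ℕ) :
    IsOpen {J : Ed → K | Near a n fun e => (J e : ℝ)} := by
  have e1 : {J : Ed → K | Near a n fun e => (J e : ℝ)} =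
      ⋂ e ∈ {e : Ed | nm (tl e) ≤ LL n ∧ nm (hd e) ≤ LL n ∧
        ¬ (nm (tl e) ≤ n ∧ nm (hd e) ≤ n)},
      {J : Ed → K | |(J e : ℝ) - a * pat n e| < a * dl n} := by
    ext J
    simp only [Set.mem_iInter]
    constructor
    · intro h e he
      exact h e he.1 he.2.1 he.2.2
    · intro h e h1 h2 h3
      exact h e ⟨h1, h2, h3⟩
  rw [e1]
  refine Set.Finite.isOpen_biInter ((fin_ed (LL n)).subset fun e he => he.1) fun e _ => ?_
  exact isOpen_lt (((continuous_subtype_val.comp (continuous_apply e)).sub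
    continuous_const).abs) continuous_const

theorem pat_val (n : ℕ) (e : Ed) : pat n e = 1 ∨ pat n e = -1 := by
  unfold pat
  split_ifs
  · exact alt_sign _
  · left; rfl

theorem typical2 {K : Set ℝ} (hK : Perf K) {a : ℝ} (ha : 0 < a) (h1 : a ∈ K) (h2 : -a ∈ K) :
    ∀ᶠ J in residual (Ed → K), ∃ σ : (Fin 2 → ℤ) → ℝ,
      GS tl hd Set.univ (fun e => (J e : ℝ)) σ ∧
      ∀ τ, GS tl hd Set.univ (fun e => (J e : ℝ)) τ → τ = σ ∨ τ = -σ := by
  classical
  have hco := cofinal (E := Ed) (K := K) (fun n => {J : Ed → K | Near a n fun e => (J e : ℝ)})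
    (near_open K a) (by
      intro n F J1
      refine ⟨n + ∑ e ∈ F, ((nm (tl e)).toNat + (nm (hd e)).toNat), by omega,
        fun e => if nm (tl e) ≤ ((n + ∑ e ∈ F, ((nm (tl e)).toNat + (nm (hd e)).toNat) : ℕ) : ℤ) ∧
          nm (hd e) ≤ ((n + ∑ e ∈ F, ((nm (tl e)).toNat + (nm (hd e)).toNat) : ℕ) : ℤ) then J1 e
          else if pat (n + ∑ e ∈ F, ((nm (tl e)).toNat + (nm (hd e)).toNat)) e = 1 then ⟨a, h1⟩
          else ⟨-a, h2⟩, ?_, ?_⟩
      · intro e _ _ h3
        have ha' : 0 < a * dl (n + ∑ e ∈ F, ((nm (tl e)).toNat + (nm (hd e)).toNat)) :=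
          mul_pos ha (dl_pos _)
        show |((if nm (tl e) ≤ ((n + ∑ e ∈ F, ((nm (tl e)).toNat + (nm (hd e)).toNat) : ℕ) : ℤ) ∧
          nm (hd e) ≤ ((n + ∑ e ∈ F, ((nm (tl e)).toNat + (nm (hd e)).toNat) : ℕ) : ℤ) then J1 e
          else if pat (n + ∑ e ∈ F, ((nm (tl e)).toNat + (nm (hd e)).toNat)) e = 1 then ⟨a, h1⟩
          else ⟨-a, h2⟩ : K) : ℝ) -
          a * pat (n + ∑ e ∈ F, ((nm (tl e)).toNat + (nm (hd e)).toNat)) e| <
          a * dl (n + ∑ e ∈ F, ((nm (tl e)).toNat + (nm (hd e)).toNat))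
        rw [if_neg h3]
        split_ifs with h4
        · rw [h4]
          simpa using ha'
        · rw [(pat_val _ e).resolve_left h4]
          simpa using ha'
      · intro e he
        have h5 := single_le_sum (f := fun e : Ed => (nm (tl e)).toNat + (nm (hd e)).toNat)
          (fun _ _ => Nat.zero_le _) he
        show (if nm (tl e) ≤ ((n + ∑ e ∈ F, ((nm (tl e)).toNat + (nm (hd e)).toNat) : ℕ) : ℤ) ∧
          nm (hd e) ≤ ((n + ∑ e ∈ F, ((nm (tl e)).toNat + (nm (hd e)).toNat) : ℕ) : ℤ) then J1 e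
          else _) = J1 e
        rw [if_pos]
        constructor <;> omega)
  filter_upwards [hco, noties (E := Ed) hK] with J hJ1 hJ2
  obtain ⟨σ, hσ⟩ := exists_gs (a := tl) (b := hd) (R := Set.univ) fib2
    (fun D hD _ => front2 D hD) (J := fun e => (J e : ℝ)) hJ2
  refine ⟨σ, hσ, fun τ hτ => ?_⟩
  refine global (fun v => hσ.1.1 v (Set.mem_univ v)) (fun v => hτ.1.1 v (Set.mem_univ v)) ?_
  intro n
  obtain ⟨m, hm, h3⟩ := hJ1 n
  exact ⟨m, hm, unique_near ha h3 hσ hτ⟩

/-- The support of an atomless law has no isolated points. -/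
theorem perf_support (μ : Measure ℝ) [IsProbabilityMeasure μ] (hat : ∀ x, μ {x} = 0) :
    Perf μ.support := by
  intro x hx ε hε
  by_contra hcon
  push Not at hcon
  have h1 : 0 < μ (Metric.ball x ε) :=
    (Measure.mem_support_iff_forall x).1 hx _ (Metric.ball_mem_nhds x hε)
  have h2 : Metric.ball x ε ⊆ {x} ∪ μ.supportᶜ := by
    intro y hy
    by_cases h3 : y ∈ μ.support
    · left
      by_contra h4
      have h5 := hcon y h3 h4
      rw [Metric.mem_ball, Real.dist_eq] at hy
      exact absurd hy (not_lt.2 h5)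
    · right; exact h3
  have h3 : μ (Metric.ball x ε) ≤ 0 := by
    refine (measure_mono h2).trans ((measure_union_le _ _).trans ?_)
    rw [hat, Measure.measure_compl_support, add_zero]
  exact absurd h1 (not_lt.2 h3)

/-- The support of a symmetric atomless law contains some `a` and `-a`. -/
theorem sym_support (μ : Measure ℝ) [IsProbabilityMeasure μ] (hat : ∀ x, μ {x} = 0)
    (hsym : μ.map (fun x : ℝ => -x) = μ) : ∃ a : ℝ, 0 < a ∧ a ∈ μ.support ∧ -a ∈ μ.support := by
  have hneg : ∀ x ∈ μ.support, -x ∈ μ.support := by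
    intro x hx
    rw [Measure.mem_support_iff_forall] at hx ⊢
    intro U hU
    obtain ⟨V, hVU, hVo, hxV⟩ := mem_nhds_iff.1 hU
    have h1 : (fun y : ℝ => -y) ⁻¹' V ∈ 𝓝 x :=
      (hVo.preimage continuous_neg).mem_nhds hxV
    have h2 := hx _ h1
    rw [← Measure.map_apply measurable_neg hVo.measurableSet, hsym] at h2
    exact h2.trans_le (measure_mono hVU)
  have h0 : ∃ x ∈ μ.support, x ≠ 0 := by
    by_contra hcon
    push Not at hcon
    have h1 : (Set.univ : Set ℝ) ⊆ {0} ∪ μ.supportᶜ := by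
      intro y _
      by_cases h3 : y ∈ μ.support
      · left; exact hcon y h3
      · right; exact h3
    have h2 : μ Set.univ ≤ 0 := by
      refine (measure_mono h1).trans ((measure_union_le _ _).trans ?_)
      rw [hat, Measure.measure_compl_support, add_zero]
    rw [measure_univ] at h2
    exact absurd h2 (by norm_num)
  obtain ⟨x, hx, hx0⟩ := h0
  rcases lt_or_gt_of_ne hx0 with h | h
  · exact ⟨-x, by linarith, hneg x hx, by rw [neg_neg]; exact hx⟩
  · exact ⟨x, h, hx, hneg x hx⟩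

end Pool.Agent.X59.GC
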